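import Pool.Agent.Helper35.HSF.StH

/-!
# Project HSF, module HMN: the second fundamental form of a hypersurface of the sphere
-/

set_option autoImplicit false

namespace Helper7.HSF

open Helper35.HSF Helper35.MS Helper35.PI Helper35.PI2 Helper32.CL
open scoped ContDiff Manifold Topology ENNReal BigOperators
open MeasureTheory Set Filter

/-- A vector orthogonal to the generators is orthogonal to the span. -/
theorem perp_span {N : ℕ} {ι : Type} (v : ι → EE N) (x : EE N)
    (h : ∀ i, (inner ℝ x (v i) : ℝ) = 0) :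
    ∀ y ∈ Submodule.span ℝ (range v), (inner ℝ x y : ℝ) = 0 := by
  have h1 : Submodule.span ℝ (range v) ≤ (ℝ ∙ x)ᗮ := by
    rw [Submodule.span_le]
    rintro _ ⟨i, rfl⟩
    exact Submodule.mem_orthogonal_singleton_iff_inner_right.2 (h i)
  intro y hy
  exact Submodule.mem_orthogonal_singleton_iff_inner_right.1 (h1 hy)

/-- `n` independent vectors, and two unit vectors orthogonal to them and to each other, span. -/
theorem eq_zero_of_perp {n : ℕ} (v : Fin n → EE (n + 2)) (a b w : EE (n + 2))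
    (hv : LinearIndependent ℝ v) (ha : a ≠ 0) (hb : b ≠ 0)
    (hav : ∀ i, (inner ℝ a (v i) : ℝ) = 0) (hbv : ∀ i, (inner ℝ b (v i) : ℝ) = 0)
    (hba : (inner ℝ b a : ℝ) = 0) (hwv : ∀ i, (inner ℝ w (v i) : ℝ) = 0)
    (hwa : (inner ℝ w a : ℝ) = 0) (hwb : (inner ℝ w b : ℝ) = 0) : w = 0 := by
  have h1 : LinearIndependent ℝ (Fin.snoc v a : Fin (n + 1) → EE (n + 2)) := by
    rw [linearIndependent_finSnoc]
    refine ⟨hv, fun hm => ha ?_⟩
    exact inner_self_eq_zero.1 (perp_span v a hav a hm)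
  have h2 : ∀ x : EE (n + 2), (∀ i, (inner ℝ x (v i) : ℝ) = 0) → (inner ℝ x a : ℝ) = 0 →
      ∀ i, (inner ℝ x ((Fin.snoc v a : Fin (n + 1) → EE (n + 2)) i) : ℝ) = 0 := by
    intro x hx hxa i
    refine Fin.lastCases ?_ (fun j => ?_) i
    · rw [Fin.snoc_last]; exact hxa
    · rw [Fin.snoc_castSucc]; exact hx j
  have h3 : LinearIndependent ℝ (Fin.snoc (Fin.snoc v a : Fin (n + 1) → EE (n + 2)) b :
      Fin (n + 1 + 1) → EE (n + 2)) := by
    rw [linearIndependent_finSnoc]
    refine ⟨h1, fun hm => hb ?_⟩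
    exact inner_self_eq_zero.1 (perp_span _ b (h2 b hbv hba) b hm)
  have h4 := h3.span_eq_top_of_card_eq_finrank (by simp)
  have h5 := perp_span (Fin.snoc (Fin.snoc v a : Fin (n + 1) → EE (n + 2)) b :
      Fin (n + 1 + 1) → EE (n + 2)) w (fun i => by
    refine Fin.lastCases ?_ (fun j => ?_) i
    · rw [Fin.snoc_last]; exact hwb
    · rw [Fin.snoc_castSucc]; exact h2 w hwv hwa j) w (by rw [h4]; exact Submodule.mem_top)
  exact inner_self_eq_zero.1 h5

/-- **HMN**. -/
theorem hHMN (_hFR : StFR) (hNR : StNR) (hCTN : StCTN) (hI2J : StI2J) : StHMN := by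
  intro n _ M _ _ _ I F ν hF hν q t ht u
  obtain ⟨hIm, -⟩ := (hCTN n (n + 2) M I F hF).1 t ht
  set φ := chartAt (EE n) q with hφ
  set f : EE n → EE (n + 2) := loc (n := n) F q t with hfdef
  set x : EE n := φ q with hx
  have hfx : f x = F q t := by
    change F (φ.symm (φ q)) t = F q t
    rw [φ.left_inv (mem_chart_source _ q)]
  have hxt : x ∈ φ.target := φ.map_source (mem_chart_source _ q)
  have hsm : ∀ y ∈ φ.target, ContDiffAt ℝ ∞ f y := by
    intro y hy
    have h1 := hI2J n (n + 2) M univ (fun q (_ : ℝ) => F q t) hIm q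
    have h2 : φ.target ×ˢ (univ : Set ℝ) ∈ 𝓝 ((y, t) : EE n × ℝ) :=
      (φ.open_target.prod isOpen_univ).mem_nhds ⟨hy, mem_univ _⟩
    have h3 : ContDiffAt ℝ ∞ (fun z : EE n × ℝ => F (φ.symm z.1) t) (y, t) :=
      (h1 (y, t) ⟨hy, mem_univ _⟩).contDiffAt h2
    have h4 : ContDiffAt ℝ ∞ (fun y : EE n => ((y, t) : EE n × ℝ)) y := by fun_prop
    exact ContDiffAt.comp (f := fun y : EE n => ((y, t) : EE n × ℝ)) y h3 h4
  have hd : ∀ y ∈ φ.target, DifferentiableAt ℝ f y := fun y hy =>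
    (hsm y hy).differentiableAt (by simp)
  have hnorm : ∀ y, (inner ℝ (f y) (f y) : ℝ) = 1 := by
    intro y
    rw [real_inner_self_eq_norm_sq]
    change ‖F (φ.symm y) t‖ ^ 2 = 1
    rw [hF.sph _ t ht, one_pow]
  have hA : ∀ y ∈ φ.target, ∀ v, (inner ℝ (f y) (fderiv ℝ f y v) : ℝ) = 0 := by
    intro y hy v
    have h1 := fderiv_inner_apply ℝ (hd y hy) (hd y hy) v
    have h2 : (fun t => (inner ℝ (f t) (f t) : ℝ)) = fun _ => (1 : ℝ) := funext hnorm
    rw [h2] at h1
    simp only [fderiv_fun_const, Pi.zero_apply, zero_apply] at h1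
    rw [real_inner_comm (f y) (fderiv ℝ f y v)] at h1
    linarith
  have hB : ∀ i j, (inner ℝ (f x) (dv2 f x i j) : ℝ) = - gram f x i j := by
    intro i j
    have hdd : DifferentiableAt ℝ (fun y => fderiv ℝ f y (ee j)) x := by
      have h1 : ContDiffAt ℝ 1 (fderiv ℝ f) x := (hsm x hxt).fderiv_right (by norm_cast)
      exact (h1.differentiableAt (by norm_num)).clm_apply (differentiableAt_const _)
    have h1 := fderiv_inner_apply ℝ (hd x hxt) hdd (ee i)
    have h2 : (fun y => (inner ℝ (f y) (fderiv ℝ f y (ee j)) : ℝ)) =ᶠ[𝓝 x] fun _ => (0 : ℝ) := by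
      filter_upwards [φ.open_target.mem_nhds hxt] with y hy
      exact hA y hy _
    rw [h2.fderiv_eq] at h1
    simp only [fderiv_fun_const, Pi.zero_apply, zero_apply] at h1
    have h3 : gram f x i j = (inner ℝ (fderiv ℝ f x (ee i)) (fderiv ℝ f x (ee j)) : ℝ) := rfl
    rw [h3]
    unfold dv2
    linarith
  have hLI : LI f x := hF.imm q t ht
  have h1 : ∀ i, (inner ℝ (f x) (dv1 f x i) : ℝ) = 0 := fun i => hA x hxt _
  obtain ⟨hn1, -, -, hn4, -, -, hn7, -⟩ := hNR n (n + 2) f x hLI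
  have hnf : nrm f x (f x) = f x := hn4 _ h1
  have hfA : ∀ i j, (inner ℝ (f x) (sff f x i j) : ℝ) = - gram f x i j := by
    intro i j
    rw [sff, ← hn7, hnf, hB]
  have hνt : ∀ i, (inner ℝ (ν q t) (dv1 f x i) : ℝ) = 0 := by
    intro i
    rw [real_inner_comm]
    exact hν.tν q t ht _ (Submodule.subset_span ⟨i, rfl⟩)
  have hνF : (inner ℝ (ν q t) (f x) : ℝ) = 0 := by
    rw [real_inner_comm, hfx]
    exact hν.Fν q t ht
  have hνν : (inner ℝ (ν q t) (ν q t) : ℝ) = 1 := by
    rw [real_inner_self_eq_norm_sq, hν.nν q t ht, one_pow]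
  have hff : (inner ℝ (f x) (f x) : ℝ) = 1 := hnorm x
  have hf0 : f x ≠ 0 := by
    intro h0
    rw [h0, inner_zero_left] at hff
    exact zero_ne_one hff
  have hν0 : ν q t ≠ 0 := by
    intro h0
    rw [h0, inner_zero_left] at hνν
    exact zero_ne_one hνν
  -- the entries
  have key : ∀ i j, hM (n := n) F q t i j = (inner ℝ (sff f x i j) (ν q t) : ℝ) • ν q t := by
    intro i j
    have e1 : hM (n := n) F q t i j = sff f x i j + gram f x i j • f x := rfl
    rw [← sub_eq_zero, e1]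
    refine eq_zero_of_perp (fun k => dv1 f x k) (f x) (ν q t) _ hLI hf0 hν0 h1 hνt hνF ?_ ?_ ?_
    · intro k
      have e2 : (inner ℝ (sff f x i j) (dv1 f x k) : ℝ) = 0 := hn1 _ k
      rw [inner_sub_left, inner_add_left, inner_smul_left, inner_smul_left, e2, h1, hνt]
      simp
    · rw [inner_sub_left, inner_add_left, inner_smul_left, inner_smul_left, hff, hνF,
        real_inner_comm, hfA]
      simp
    · have e3 : (inner ℝ (f x) (ν q t) : ℝ) = 0 := by rw [real_inner_comm, hνF]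
      rw [inner_sub_left, inner_add_left, inner_smul_left, inner_smul_left, hνν, e3]
      simp
  refine ⟨?_, ?_⟩
  · have e1 : gn F q t u = ‖∑ i, u i • dv1 f x i‖ ^ 2 := rfl
    rw [e1, ← real_inner_self_eq_norm_sq, sum_inner]
    refine Finset.sum_congr rfl fun i _ => ?_
    rw [inner_sum]
    refine Finset.sum_congr rfl fun j _ => ?_
    rw [real_inner_smul_left, real_inner_smul_right]
    have e2 : gM (n := n) F q t i j = (inner ℝ (dv1 f x i) (dv1 f x j) : ℝ) := rfl
    rw [e2]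
    ring
  · have e1 : hn F ν q t u = (inner ℝ (∑ i, ∑ j, (u i * u j) • sff f x i j) (ν q t) : ℝ) := rfl
    rw [e1, sum_inner, Finset.sum_smul]
    refine Finset.sum_congr rfl fun i _ => ?_
    rw [sum_inner, Finset.sum_smul]
    refine Finset.sum_congr rfl fun j _ => ?_
    rw [key, real_inner_smul_left, smul_smul]

end Helper7.HSF
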